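import Pool.Agent.Lib.LB49.Var

/-! Vector fields that kill a Lipschitz function are closed under brackets. -/

set_option autoImplicit false

open Set Filter Topology Metric Asymptotics
open scoped ContDiff NNReal

namespace Pool.Agent.Lib.LB49

variable {E : Type} [NormedAddCommGroup E] [NormedSpace ℝ E]

/-- a Lipschitz function sees only the velocity of a curve -/
theorem curve_iff {Φ : E → ℝ} {C : ℝ≥0} (hL : LipschitzWith C Φ) {γ : ℝ → E} {v : E} {t c : ℝ}
    (hγ : HasDerivAt γ v t) :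
    HasDerivAt (fun s => Φ (γ s)) c t ↔ HasDerivAt (fun s : ℝ => Φ (γ t + s • v)) c 0 := by
  rw [hasDerivAt_iff_isLittleO_nhds_zero] at hγ
  have a1 : (fun s : ℝ => Φ (γ (t + s)) - Φ (γ t + s • v)) =o[𝓝 0] fun s : ℝ => s := by
    refine IsBigO.trans_isLittleO (IsBigO.of_bound C (Eventually.of_forall fun s => ?_)) hγ
    have := hL.dist_le_mul (γ (t + s)) (γ t + s • v)
    rwa [dist_eq_norm, dist_eq_norm, ← sub_sub] at this
  simp only [hasDerivAt_iff_isLittleO_nhds_zero, zero_add, zero_smul, add_zero]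
  constructor
  · intro h
    exact (h.sub a1).congr_left fun s => by ring
  · intro h
    exact (h.add a1).congr_left fun s => by ring

/-- the derivative of a curve in a closed subspace -/
theorem deriv_mem {W : Submodule ℝ E} (hW : IsClosed (W : Set E)) {v : ℝ → E} {v' : E} {t : ℝ}
    (hv : HasDerivAt v v' t) (h : ∀ᶠ s in 𝓝 t, v s ∈ W) : v' ∈ W := by
  refine hW.mem_of_tendsto (hasDerivAt_iff_tendsto_slope.1 hv) ?_
  filter_upwards [nhdsWithin_le_nhds h] with s hs
  exact W.smul_mem _ (W.sub_mem hs h.self_of_nhds)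

variable [FiniteDimensional ℝ E]

theorem bracket_mem {Φ : E → ℝ} {C : ℝ≥0} (hL : LipschitzWith C Φ) {P Q : E → E}
    (hP : ContDiff ℝ ∞ P) (hQ : ContDiff ℝ ∞ Q)
    (kP : ∀ y, HasDerivAt (fun s : ℝ => Φ (y + s • P y)) 0 0)
    (kQ : ∀ y, HasDerivAt (fun s : ℝ => Φ (y + s • Q y)) 0 0) (x : E) (W : Submodule ℝ E)
    (hW : ∀ v, HasDerivAt (fun s : ℝ => Φ (x + s • v)) 0 0 → v ∈ W) :
    fderiv ℝ Q x (P x) - fderiv ℝ P x (Q x) ∈ W := by
  obtain ⟨χ, φ, hZ, hφ, h0, hg, hd, -, hχ⟩ := cut_flow (S := P) (p₀ := x) univ_mem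
    fun p _ => hP.contDiffAt
  set Z : E → E := fun p => χ p • P p with hZd
  have e : Z =ᶠ[𝓝 x] P := hχ.mono fun q hq => by simp [hZd, hq]
  have kZ : ∀ y, HasDerivAt (fun s : ℝ => Φ (y + s • Z y)) 0 0 := fun y => by
    have a1 : HasDerivAt (fun s : ℝ => s * χ y) (χ y) 0 := by
      simpa using (hasDerivAt_id (0 : ℝ)).mul_const (χ y)
    have a2 := (kP y).comp_of_eq 0 a1 (by simp)
    simpa [Function.comp_def, hZd, smul_smul] using a2
  have inv : ∀ y s, Φ (φ s y) = Φ y := fun y s => by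
    have a1 : ∀ t, HasDerivAt (fun s => Φ (φ s y)) 0 t := fun t =>
      (curve_iff hL (hd y t)).2 (kZ _)
    have := is_const_of_deriv_eq_zero (fun t => (a1 t).differentiableAt) (fun t => (a1 t).deriv) s 0
    rwa [h0] at this
  set G : ℝ × E → E := fun q => φ q.1 q.2 with hG
  have d2 : Differentiable ℝ (fderiv ℝ G) :=
    (hφ.fderiv_right (m := ∞) (by simp)).differentiable (by simp)
  have dφ : ∀ s y, HasFDerivAt (φ s) (fderiv ℝ (φ s) y) y := fun s y =>
    (slice_fd hφ s y).differentiableAt.hasFDerivAt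
  have back : ∀ s y, φ (-s) (φ s y) = y := fun s y => by rw [← hg, neg_add_cancel, h0]
  have fwd : ∀ s y, φ s (φ (-s) y) = y := fun s y => by rw [← hg, add_neg_cancel, h0]
  have id0 : φ 0 = id := funext h0
  let v : ℝ → E := fun s => fderiv ℝ (φ (-s)) (φ s x) (Q (φ s x))
  have v1 : ∀ s, v s ∈ W := fun s => by
    have a1 : HasDerivAt (fun t : ℝ => φ s x + t • Q (φ s x)) (Q (φ s x)) 0 := by
      simpa using ((hasDerivAt_id (0 : ℝ)).smul_const (Q (φ s x))).const_add (φ s x)
    have a2 := (dφ (-s) (φ s x)).comp_hasDerivAt_of_eq 0 a1 (by simp)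
    have a3 := (curve_iff hL (c := 0) a2).1 (by simpa [Function.comp_def, inv] using kQ (φ s x))
    refine hW _ ?_
    simpa [back] using a3
  have c0 : HasDerivAt (fun s => φ s x) (P x) 0 := by
    have a1 : HasDerivAt (fun s => φ s x) (Z (φ 0 x)) 0 := hd x 0
    rwa [h0, e.self_of_nhds] at a1
  have c1 : HasDerivAt (fun s => Q (φ s x)) (fderiv ℝ Q x (P x)) 0 :=
    (hQ.differentiable (by simp) x).hasFDerivAt.comp_hasDerivAt_of_eq 0 c0 (h0 x).symm
  have v2 : DifferentiableAt ℝ v 0 := by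
    have a1 : v = fun s => fderiv ℝ G (-s, φ s x) (0, Q (φ s x)) := funext fun s => by
      simp only [v]
      rw [(slice_fd hφ (-s) _).fderiv]
      simp [hG]
    rw [a1]
    exact ((d2 _).comp 0 (differentiableAt_id.neg.prodMk c0.differentiableAt)).clm_apply
      ((differentiableAt_const _).prodMk c1.differentiableAt)
  have m1 : DifferentiableAt ℝ (fun s => fderiv ℝ (φ s) x) 0 := by
    have a1 : (fun s => fderiv ℝ (φ s) x) = fun s => (fderiv ℝ G (s, x)).comp
      (ContinuousLinearMap.inr ℝ ℝ E) := funext fun s => (slice_fd hφ s x).fderiv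
    rw [a1]
    exact ((d2 _).comp 0 (differentiableAt_id.prodMk (differentiableAt_const _))).clm_comp
      (differentiableAt_const _)
  have m2 : deriv (fun s => fderiv ℝ (φ s) x) 0 (Q x) = fderiv ℝ P x (Q x) := by
    have a1 := (m1.hasDerivAt.clm_apply (hasDerivAt_const 0 (Q x))).unique (var_eq hZ hφ hd x (Q x) 0)
    simpa [id0, e.fderiv_eq] using a1
  have m3 : (fun s => fderiv ℝ (φ s) x (v s)) = fun s => Q (φ s x) := funext fun s => by
    have a1 : HasFDerivAt (φ s) (fderiv ℝ (φ s) x) (φ (-s) (φ s x)) := by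
      rw [back]
      exact dφ s x
    have a2 := a1.comp (φ s x) (dφ (-s) (φ s x))
    rw [show φ s ∘ φ (-s) = id from funext (fwd s)] at a2
    simpa using congrArg (fun T => T (Q (φ s x))) (a2.unique (hasFDerivAt_id _))
  have m4 := m1.hasDerivAt.clm_apply v2.hasDerivAt
  rw [m3] at m4
  have m5 := m4.unique c1
  have v0 : v 0 = Q x := by simp [v, id0]
  rw [v0, m2, id0] at m5
  have m6 : deriv v 0 = fderiv ℝ Q x (P x) - fderiv ℝ P x (Q x) := by
    rw [← m5]
    simp
  rw [← m6]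
  exact deriv_mem W.closed_of_finiteDimensional v2.hasDerivAt (Eventually.of_forall v1)

end Pool.Agent.Lib.LB49
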