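import Pool.Agent.Lib.LB49.Var

/-! First integrals of an involutive family of vector fields. -/

set_option autoImplicit false

open Set Filter Topology Metric
open scoped ContDiff NNReal

namespace Pool.Agent.Lib.LB49

variable {E F : Type} [NormedAddCommGroup E] [NormedSpace ℝ E] [FiniteDimensional ℝ E]
  [NormedAddCommGroup F] [NormedSpace ℝ F] [FiniteDimensional ℝ F]

/-- commuting graph fields have a full set of first integrals -/
theorem frob_graph (B : E → F →L[ℝ] E) (lam : E →L[ℝ] F) {x₀ : E} {U : Set E} (hU : U ∈ 𝓝 x₀)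
    (hB : ∀ x ∈ U, ContDiffAt ℝ ∞ B x) (hl : ∀ x ∈ U, ∀ u, lam (B x u) = u)
    (hs : ∀ x ∈ U, ∀ u v, fderiv ℝ B x (B x u) v = fderiv ℝ B x (B x v) u) :
    ∃ τ : E → E, ContDiff ℝ ∞ τ ∧ ∀ᶠ x in 𝓝 x₀, ∀ h, fderiv ℝ τ x h = 0 ↔ ∃ u, B x u = h := by
  let S : E × F → E × F := fun p => (B p.1 p.2, 0)
  have hU' : {p : E × F | p.1 ∈ U} ∈ 𝓝 (x₀, (0 : F)) := continuous_fst.continuousAt.preimage_mem_nhds hU
  obtain ⟨χ, Φ, hZ, hΦ, h0, -, hd, hfix, hχ⟩ := cut_flow (S := S) hU' fun p hp =>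
    (((hB p.1 hp).comp p contDiffAt_fst).clm_apply contDiffAt_snd).prodMk contDiffAt_const
  have hfix := hfix (by simp [S])
  set Z : E × F → E × F := fun p => χ p • S p with hZd
  -- good points
  have hg : ∀ᶠ p in 𝓝 (x₀, (0 : F)), p.1 ∈ U ∧ Z p = (B p.1 p.2, 0) ∧
      ∀ w : E × F, fderiv ℝ Z p w = (fderiv ℝ B p.1 w.1 p.2 + B p.1 w.2, 0) := by
    filter_upwards [hU', hχ.eventually_nhds] with p hp hc
    have e : Z =ᶠ[𝓝 p] S := hc.mono fun q hq => by simp [hZd, hq]
    refine ⟨hp, e.self_of_nhds, fun w => ?_⟩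
    have a1 := ((((hB p.1 hp).differentiableAt (by simp)).hasFDerivAt.comp p
      hasFDerivAt_fst).clm_apply hasFDerivAt_snd).prodMk (hasFDerivAt_const (0 : F) p)
    have a2 : HasFDerivAt S _ p := a1
    rw [e.fderiv_eq, a2.fderiv]
    simp [add_comm]
  have hev : ∀ᶠ p in 𝓝 (x₀, (0 : F)), ∀ s ∈ Icc (0 : ℝ) 1, (Φ s p).1 ∈ U ∧
      Z (Φ s p) = (B (Φ s p).1 (Φ s p).2, 0) ∧ ∀ w : E × F, fderiv ℝ Z (Φ s p) w =
        (fderiv ℝ B (Φ s p).1 w.1 (Φ s p).2 + B (Φ s p).1 w.2, 0) := by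
    refine isCompact_Icc.eventually_forall_of_forall_eventually fun s _ => ?_
    have hc : Continuous fun z : (E × F) × ℝ => Φ z.2 z.1 := hΦ.continuous.comp continuous_swap
    have h5 : Tendsto (fun z : (E × F) × ℝ => Φ z.2 z.1) (𝓝 ((x₀, 0), s)) (𝓝 (x₀, 0)) :=
      hc.tendsto' _ _ (hfix s)
    exact h5.eventually hg
  have hA : ∀ p, Continuous fun t => fderiv ℝ Z (Φ t p) := fun p =>
    (hZ.continuous_fderiv (by simp)).comp (hΦ.continuous.comp (continuous_id.prodMk continuous_const))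
  have key : ∀ (p w : E × F) (K : ℝ → E × F), K 0 = w →
      (∀ t ∈ Icc (0 : ℝ) 1, HasDerivAt K (fderiv ℝ Z (Φ t p) (K t)) t) →
      fderiv ℝ (Φ 1) p w = K 1 := fun p w K k0 hK => by
    refine lin_uniq (J := fun t => fderiv ℝ (Φ t) p w) (hA p) (fun t _ => var_eq hZ hΦ hd p w t) hK ?_
    have : Φ 0 = id := funext h0
    simp [this, k0]
  let ι : E → E × F := fun x => (x, -lam (x - x₀))
  have hι : ContDiff ℝ ∞ ι := contDiff_id.prodMk (lam.contDiff.comp (contDiff_id.sub contDiff_const)).neg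
  have ι0 : ι x₀ = (x₀, 0) := by simp [ι]
  have hτ : ContDiff ℝ ∞ fun x => (Φ 1 (ι x)).1 :=
    contDiff_fst.comp (hΦ.comp (contDiff_const.prodMk hι))
  have dτ : ∀ x h, fderiv ℝ (fun x => (Φ 1 (ι x)).1) x h = (fderiv ℝ (Φ 1) (ι x) (h, -lam h)).1 := by
    intro x h
    have a1 : HasFDerivAt ι ((ContinuousLinearMap.id ℝ E).prod (-lam)) x := by
      have a2 := (lam.hasFDerivAt.comp x ((hasFDerivAt_id x).sub_const x₀)).neg
      exact (hasFDerivAt_id x).prodMk (a2.congr_fderiv (by simp))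
    have a3 := ((slice_fd hΦ 1 (ι x)).differentiableAt.hasFDerivAt.comp x a1).fst
    rw [show (fun x => (Φ 1 (ι x)).1) = fun x => ((Φ 1 ∘ ι) x).1 from rfl, a3.fderiv]
    simp
  refine ⟨_, hτ, ?_⟩
  set D := fderiv ℝ fun x => (Φ 1 (ι x)).1 with hD
  have hc : Continuous D := hτ.continuous_fderiv (by simp)
  have h1 : ∀ c, lam c = 0 → D x₀ c = c := fun c hc => by
    rw [dτ, ι0, key (x₀, 0) _ (fun _ => (c, -lam c)) rfl fun t _ => ?_]
    rw [hfix, hg.self_of_nhds.2.2]
    refine (hasDerivAt_const t _).congr_deriv ?_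
    simp [hc, Prod.ext_iff]
  have h2 : ∀ᶠ x in 𝓝 x₀, ‖D x - D x₀‖ < 1 / 2 := by
    have : ContinuousAt (fun x => ‖D x - D x₀‖) x₀ := by fun_prop
    exact this.eventually (gt_mem_nhds (by simp))
  have h3 := hι.continuous.continuousAt.eventually (ι0 ▸ hev)
  filter_upwards [h2, h3, hU] with x x2 x3 xU
  have h4 : ∀ u, D x (B x u) = 0 := fun u => by
    rw [dτ, hl x xU, key (ι x) _ (fun t => ((1 - t) • B (Φ t (ι x)).1 u, -u)) (by simp [h0, ι])
      fun t ht => ?_]
    · simp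
    obtain ⟨y1, y2, y3⟩ := x3 t ht
    have a1 : HasDerivAt (fun τ => (Φ τ (ι x)).1) (B (Φ t (ι x)).1 (Φ t (ι x)).2) t := by
      have a2 : HasDerivAt (fun τ => Φ τ (ι x)) (Z (Φ t (ι x))) t := hd _ t
      rw [y2] at a2
      exact a2.fst
    have a3 := ((((hB _ y1).differentiableAt (by simp)).hasFDerivAt.comp_hasDerivAt t a1).clm_apply
      (hasDerivAt_const t u))
    have a4 := (((hasDerivAt_id t).const_sub 1).smul a3).prodMk (hasDerivAt_const t (-u))
    refine a4.congr_deriv ?_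
    rw [y3]
    simp [hs _ y1 (Φ t (ι x)).2 u]
  refine fun h => ⟨fun hh => ⟨lam h, ?_⟩, ?_⟩
  · have a1 : lam (h - B x (lam h)) = 0 := by rw [map_sub, hl x xU, sub_self]
    have a2 : D x (h - B x (lam h)) = 0 := by rw [map_sub, hh, h4, sub_self]
    have a3 := (D x - D x₀).le_opNorm (h - B x (lam h))
    rw [sub_apply, a2, h1 _ a1, zero_sub, norm_neg] at a3
    have a4 : ‖h - B x (lam h)‖ ≤ 0 := by nlinarith [norm_nonneg (h - B x (lam h))]
    exact (sub_eq_zero.1 (norm_le_zero_iff.1 a4)).symm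
  · rintro ⟨u, rfl⟩
    exact h4 u

/-- Frobenius, for a family of fields given as a field of linear maps -/
theorem frob_map (P : E → F →L[ℝ] E) {x₀ : E} (hP : ContDiff ℝ ∞ P)
    (hi : Function.Injective (P x₀))
    (hs : ∀ᶠ x in 𝓝 x₀, ∀ a b, ∃ c, fderiv ℝ P x (P x a) b - fderiv ℝ P x (P x b) a = P x c) :
    ∃ τ : E → E, ContDiff ℝ ∞ τ ∧ ∀ᶠ x in 𝓝 x₀, ∀ h, fderiv ℝ τ x h = 0 ↔ ∃ u, P x u = h := by
  have : CompleteSpace F := FiniteDimensional.complete ℝ F
  obtain ⟨l, hl⟩ := (P x₀ : F →ₗ[ℝ] E).exists_leftInverse_of_injective (LinearMap.ker_eq_bot.2 hi)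
  let lam : E →L[ℝ] F := LinearMap.toContinuousLinearMap l
  have hM : ContDiff ℝ ∞ fun x => lam.comp (P x) := contDiff_const.clm_comp hP
  have h1 : lam.comp (P x₀) = 1 := by
    ext u
    exact LinearMap.congr_fun hl u
  have hu : ∀ᶠ x in 𝓝 x₀, IsUnit (lam.comp (P x)) :=
    hM.continuous.continuousAt.eventually (Units.isOpen.mem_nhds (by
      change IsUnit (lam.comp (P x₀))
      rw [h1]
      exact isUnit_one))
  let C : E → F →L[ℝ] F := fun x => Ring.inverse (lam.comp (P x))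
  have hC : ∀ x, IsUnit (lam.comp (P x)) → ContDiffAt ℝ ∞ C x := fun x hx => by
    obtain ⟨w, hw⟩ := hx
    have := contDiffAt_ringInverse ℝ (n := ∞) w
    rw [hw] at this
    exact this.comp x hM.contDiffAt
  have c1 : ∀ x, IsUnit (lam.comp (P x)) → ∀ u, lam (P x (C x u)) = u := fun x hx u =>
    congrArg (fun T : F →L[ℝ] F => T u) (Ring.mul_inverse_cancel _ hx)
  have c2 : ∀ x, IsUnit (lam.comp (P x)) → ∀ u, C x (lam (P x u)) = u := fun x hx u =>
    congrArg (fun T : F →L[ℝ] F => T u) (Ring.inverse_mul_cancel _ hx)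
  have hB : ∀ x, IsUnit (lam.comp (P x)) → ContDiffAt ℝ ∞ (fun x => (P x).comp (C x)) x :=
    fun x hx => hP.contDiffAt.clm_comp (hC x hx)
  obtain ⟨τ, t1, t2⟩ := frob_graph (fun x => (P x).comp (C x)) lam (hu.eventually_nhds.and hs)
    (fun x hx => hB x hx.1.self_of_nhds) (fun x hx => c1 x hx.1.self_of_nhds) fun x hx u v => by
      have x1 := hx.1.self_of_nhds
      have dB := ((hB x x1).differentiableAt (by simp)).hasFDerivAt
      have a1 : ∀ h w, lam (fderiv ℝ (fun x => (P x).comp (C x)) x h w) = 0 := fun h w => by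
        have a2 := lam.hasFDerivAt.comp x (dB.clm_apply (hasFDerivAt_const w x))
        have a3 : HasFDerivAt (lam ∘ fun y => (P y).comp (C y) w) (0 : E →L[ℝ] F) x :=
          (hasFDerivAt_const w x).congr_of_eventuallyEq (hx.1.mono fun y hy => c1 y hy w)
        simpa using congrArg (fun T => T h) (a2.unique a3)
      have a4 : ∀ h w, fderiv ℝ (fun x => (P x).comp (C x)) x h w =
          fderiv ℝ P x h (C x w) + P x (fderiv ℝ C x h w) := fun h w => by
        rw [((hP.differentiable (by simp) x).hasFDerivAt.clm_comp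
          ((hC x x1).differentiableAt (by simp)).hasFDerivAt).fderiv]
        simp [add_comm]
      obtain ⟨c, hc⟩ := hx.2 (C x u) (C x v)
      have a5 : fderiv ℝ (fun x => (P x).comp (C x)) x ((P x).comp (C x) u) v -
          fderiv ℝ (fun x => (P x).comp (C x)) x ((P x).comp (C x) v) u =
          P x (c + fderiv ℝ C x (P x (C x u)) v - fderiv ℝ C x (P x (C x v)) u) := by
        rw [a4, a4, map_sub, map_add, ← hc]
        simp only [ContinuousLinearMap.comp_apply]
        abel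
      have a6 := congrArg (fun z => C x (lam z)) a5
      simp only [map_sub lam, a1, sub_self, map_zero, c2 x x1] at a6
      rw [← a6, map_zero] at a5
      exact sub_eq_zero.1 a5
  refine ⟨τ, t1, ?_⟩
  filter_upwards [t2, hu] with x hx x1 h
  rw [hx]
  exact ⟨fun ⟨u, hu⟩ => ⟨C x u, hu⟩, fun ⟨u, hu⟩ => ⟨lam (P x u), by
    rw [ContinuousLinearMap.comp_apply, c2 x x1, hu]⟩⟩

/-- Frobenius, for a finite family of vector fields -/
theorem frob {ι : Type} [Fintype ι] (P : ι → E → E) (hP : ∀ i, ContDiff ℝ ∞ (P i)) {x₀ : E}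
    (hi : LinearIndependent ℝ fun i => P i x₀)
    (hs : ∀ᶠ x in 𝓝 x₀, ∀ i j, fderiv ℝ (P j) x (P i x) - fderiv ℝ (P i) x (P j x) ∈
      Submodule.span ℝ (range fun i => P i x)) :
    ∃ τ : E → E, ContDiff ℝ ∞ τ ∧ ∀ᶠ x in 𝓝 x₀, ∀ h,
      fderiv ℝ τ x h = 0 ↔ h ∈ Submodule.span ℝ (range fun i => P i x) := by
  let M : E → (ι → ℝ) →L[ℝ] E := fun x =>
    ∑ i, ContinuousLinearMap.smulRightL ℝ (ι → ℝ) E (ContinuousLinearMap.proj i) (P i x)
  have m1 : ∀ x a, M x a = ∑ i, a i • P i x := fun x a => by simp [M]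
  have m2 : ContDiff ℝ ∞ M := ContDiff.sum fun i _ => (ContinuousLinearMap.contDiff _).comp (hP i)
  have m3 : ∀ x h, (∃ u, M x u = h) ↔ h ∈ Submodule.span ℝ (range fun i => P i x) := fun x h => by
    simp only [m1, Submodule.mem_span_range_iff_exists_fun]
  have m4 : ∀ x h b, fderiv ℝ M x h b = ∑ j, b j • fderiv ℝ (P j) x h := fun x h b => by
    have a1 := (m2.differentiable (by simp) x).hasFDerivAt.clm_apply (hasFDerivAt_const b x)
    have a2 : HasFDerivAt (fun y => M y b) (∑ j, b j • fderiv ℝ (P j) x) x := by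
      simp only [m1]
      exact HasFDerivAt.fun_sum fun j _ =>
        ((hP j).differentiable (by simp) x).hasFDerivAt.fun_const_smul (b j)
    simpa using congrArg (fun T => T h) (a1.unique a2)
  obtain ⟨τ, t1, t2⟩ := frob_map M (x₀ := x₀) m2 (fun a b hab => by
    rw [m1, m1] at hab
    exact funext (Fintype.linearIndependent_iffₛ.1 hi a b hab)) (hs.mono fun x hx a b => by
      simp only [eq_comm (b := M x _)]
      rw [m3, m4, m4, m1, m1]
      have e : ∑ j, b j • fderiv ℝ (P j) x (∑ i, a i • P i x) -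
          ∑ i, a i • fderiv ℝ (P i) x (∑ j, b j • P j x) =
          ∑ i, ∑ j, (a i * b j) • (fderiv ℝ (P j) x (P i x) - fderiv ℝ (P i) x (P j x)) := by
        simp only [map_sum, map_smul, Finset.smul_sum, smul_sub, Finset.sum_sub_distrib, smul_smul]
        rw [Finset.sum_comm]
        simp only [mul_comm]
      rw [e]
      exact Submodule.sum_mem _ fun i _ => Submodule.sum_mem _ fun j _ =>
        Submodule.smul_mem _ _ (hx i j))
  exact ⟨τ, t1, t2.mono fun x hx h => (hx h).trans (m3 x h)⟩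

end Pool.Agent.Lib.LB49
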