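import Pool.Agent.Lib.LB49.Cnt

/-! A function that is rational of bounded degree on many hyperplanes is rational. -/

set_option autoImplicit false

open Set Filter Topology Module Metric

namespace Pool.Agent.Lib.LB49

variable {E : Type} [NormedAddCommGroup E] [NormedSpace ℝ E]

/-- general position of a family of linear forms, seen from `O` -/
def GP (O : Set E) {n : ℕ} (c : Fin n → E →L[ℝ] ℝ) : Prop :=
  (∀ i j, i ≠ j → c i ≠ c j ∧ ∃ x ∈ O, c i x = c j x) ∧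
    ∀ i j k, i ≠ j → i ≠ k → j ≠ k → ∃ x, c i x = c j x ∧ c i x ≠ c k x

lemma two_forms [FiniteDimensional ℝ E] (h3 : 3 ≤ finrank ℝ E) (x₀ : E) :
    ∃ (μ ν : E →L[ℝ] ℝ) (e f : E), μ x₀ = 0 ∧ ν x₀ = 0 ∧ μ e = 1 ∧ ν e = 0 ∧ μ f = 0 ∧ ν f = 1 := by
  have a1 : ∀ u v : E, ∃ (μ : E →L[ℝ] ℝ) (e : E), μ u = 0 ∧ μ v = 0 ∧ μ e = 1 := fun u v => by
    have b1 : Submodule.span ℝ (range ![u, v]) < ⊤ := Submodule.lt_top_of_finrank_lt_finrank
      (lt_of_le_of_lt (finrank_range_le_card ![u, v]) (by simp; omega))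
    obtain ⟨l, l1, l2⟩ := Submodule.exists_le_ker_of_lt_top _ b1
    obtain ⟨e, he⟩ : ∃ e, l e = 1 := LinearMap.surjective_of_ne_zero l1 1
    exact ⟨LinearMap.toContinuousLinearMap l, e, l2 (Submodule.subset_span ⟨0, rfl⟩),
      l2 (Submodule.subset_span ⟨1, rfl⟩), he⟩
  obtain ⟨μ, e, m1, -, m2⟩ := a1 x₀ x₀
  obtain ⟨ν, f, n1, n2, n3⟩ := a1 x₀ e
  exact ⟨μ - μ f • ν, ν, e, f, by simp [m1, n1], n1, by simp [m2, n2], n2, by simp [n3], n3⟩

lemma gp_near [FiniteDimensional ℝ E] (h3 : 3 ≤ finrank ℝ E) {x₀ : E} {O : Set E} (hO : O ∈ 𝓝 x₀)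
    (n : ℕ) {r : ℝ} (hr : 0 < r) : ∃ c : Fin (n + 1) → E →L[ℝ] ℝ, c (Fin.last n) = 0 ∧
      (∀ i, ‖c i‖ < r) ∧ ∀ᶠ c' in 𝓝 c, GP O c' := by
  obtain ⟨μ, ν, e, f, m0, n0, me, ne, mf, nf⟩ := two_forms h3 x₀
  let a : Fin (n + 1) → ℝ := fun i => (n : ℝ) - (i : ℕ)
  have ha : ∀ i j, i ≠ j → a i - a j ≠ 0 := fun i j hij h => hij (Fin.ext (by
    have : ((i : ℕ) : ℝ) = (j : ℕ) := by simp only [a] at h; linarith
    exact_mod_cast this))
  obtain ⟨s, s0, s1⟩ : ∃ s : ℝ, 0 < s ∧ ∀ i, ‖s • (a i • μ + a i ^ 2 • ν)‖ < r := by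
    have : ∀ᶠ s : ℝ in 𝓝 0, ∀ i, ‖s • (a i • μ + a i ^ 2 • ν)‖ < r := eventually_all.2 fun i => by
      have b : ContinuousAt (fun s : ℝ => ‖s • (a i • μ + a i ^ 2 • ν)‖) 0 := by fun_prop
      exact b.eventually (gt_mem_nhds (by simpa using hr))
    obtain ⟨s, h1, h2⟩ := ((this.filter_mono (nhdsWithin_le_nhds (s := Ioi 0))).and
      self_mem_nhdsWithin).exists
    exact ⟨s, h2, h1⟩
  obtain ⟨η, η0, hη⟩ : ∃ η : ℝ, 0 < η ∧ ∀ t : ℝ, |t| ≤ η → x₀ + t • e ∈ O := by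
    have b : Tendsto (fun t : ℝ => x₀ + t • e) (𝓝 0) (𝓝 x₀) :=
      Continuous.tendsto' (by fun_prop) _ _ (by simp)
    obtain ⟨ε, ε0, hε⟩ := Metric.eventually_nhds_iff.1 (b.eventually hO)
    exact ⟨ε / 2, by positivity, fun t ht => hε (by rw [Real.dist_eq, sub_zero]; linarith)⟩
  set c : Fin (n + 1) → E →L[ℝ] ℝ := fun i => s • (a i • μ + a i ^ 2 • ν) with hc
  have c0 : ∀ i, c i x₀ = 0 := fun i => by simp [hc, m0, n0]
  have ce : ∀ i, c i e = s * a i := fun i => by simp [hc, me, ne]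
  have cf : ∀ i, c i f = s * a i ^ 2 := fun i => by simp [hc, mf, nf]
  refine ⟨c, by simp [hc, a], s1, Eventually.and ?_ ?_⟩
  · refine eventually_all.2 fun i => eventually_all.2 fun j => eventually_all.2 fun hij => ?_
    have b : ContinuousAt (fun d : Fin (n + 1) → E →L[ℝ] ℝ =>
        |d i x₀ - d j x₀| - η * |d i e - d j e|) c := by fun_prop
    have b0 : |c i x₀ - c j x₀| - η * |c i e - c j e| < 0 := by
      rw [c0, c0, ce, ce, ← mul_sub]
      have := mul_pos η0 (abs_pos.2 (mul_ne_zero s0.ne' (ha i j hij)))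
      simpa using this
    filter_upwards [b.eventually (gt_mem_nhds b0)] with d hd
    have b1 : d i e - d j e ≠ 0 := fun h => by
      rw [h, abs_zero, mul_zero, sub_zero] at hd
      exact (abs_nonneg _).not_gt hd
    refine ⟨fun h => b1 (by rw [h, sub_self]),
      x₀ + (-(d i x₀ - d j x₀) / (d i e - d j e)) • e, hη _ ?_, ?_⟩
    · rw [abs_div, abs_neg, div_le_iff₀ (abs_pos.2 b1)]
      linarith
    · simp only [map_add, map_smul, smul_eq_mul]
      field_simp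
      ring
  · refine eventually_all.2 fun i => eventually_all.2 fun j => eventually_all.2 fun k =>
      eventually_all.2 fun hij => eventually_all.2 fun hik => eventually_all.2 fun hjk => ?_
    have b : ContinuousAt (fun d : Fin (n + 1) → E →L[ℝ] ℝ =>
        (d i e - d j e) * (d i f - d k f) - (d i f - d j f) * (d i e - d k e)) c := by fun_prop
    have b0 : (c i e - c j e) * (c i f - c k f) - (c i f - c j f) * (c i e - c k e) ≠ 0 := by
      have e1 : (c i e - c j e) * (c i f - c k f) - (c i f - c j f) * (c i e - c k e) =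
          -(s ^ 2 * ((a i - a j) * ((a i - a k) * (a j - a k)))) := by
        simp only [ce, cf]
        ring
      rw [e1]
      exact neg_ne_zero.2 (mul_ne_zero (pow_ne_zero _ s0.ne')
        (mul_ne_zero (ha i j hij) (mul_ne_zero (ha i k hik) (ha j k hjk))))
    filter_upwards [b.eventually_ne b0] with d hd
    refine ⟨(d i e - d j e) • f - (d i f - d j f) • e, ?_, fun h => hd ?_⟩
    · simp only [map_sub, map_smul, smul_eq_mul]
      ring
    · simp only [map_sub, map_smul, smul_eq_mul] at h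
      linear_combination h

/-- good forms in general position together with every small form -/
lemma gp_pick [FiniteDimensional ℝ E] (h3 : 3 ≤ finrank ℝ E) {x₀ : E} {O : Set E} (hO : O ∈ 𝓝 x₀)
    {S : Set (E →L[ℝ] ℝ)} (hS : closure S ∈ 𝓝 0) (n : ℕ) : ∃ L : Fin n → E →L[ℝ] ℝ,
      (∀ i, L i ∈ S) ∧ ∃ ε > 0, ∀ l : E →L[ℝ] ℝ, ‖l‖ < ε → GP O (Fin.snoc L l : Fin (n + 1) → _) := by
  obtain ⟨r, r0, hr⟩ := Metric.mem_nhds_iff.1 hS
  obtain ⟨c, c0, c1, c2⟩ := gp_near h3 hO n r0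
  obtain ⟨ε, ε0, hε⟩ := Metric.eventually_nhds_iff.1 c2
  choose L L1 L2 using fun i : Fin n => Metric.mem_closure_iff.1
    (hr (mem_ball_zero_iff.2 (c1 i.castSucc))) ε ε0
  refine ⟨L, L1, ε, ε0, fun l hl => hε ((dist_pi_lt_iff ε0).2 fun i => ?_)⟩
  refine Fin.lastCases ?_ (fun i => ?_) i
  · simpa [c0] using hl
  · simpa [dist_comm] using L2 i

/-- vanishing on an open piece of a hyperplane -/
lemma hyp_ident {d : ℕ} {f : E → ℝ} (hf : f ∈ Pd E d) {O : Set E} (hO : IsOpen O) (l : Dual ℝ E)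
    {x : E} (hx : x ∈ O) (lx : l x = 0) (h : ∀ y ∈ O, l y = 0 → f y = 0) (y : E) (ly : l y = 0) :
    f y = 0 :=
  Pd_ident (Pd_lin hf (LinearMap.ker l).subtype) (x := ⟨x, lx⟩)
    ((continuous_subtype_val.continuousAt.eventually (hO.mem_nhds hx)).mono fun z hz => h z hz z.2)
    ⟨y, ly⟩

/-- the Siegel count -/
theorem sr [FiniteDimensional ℝ E] {V m : Type} [AddCommGroup V] [Module ℝ V] [FiniteDimensional ℝ V]
    [Fintype m] (h3 : 3 ≤ finrank ℝ E) (ι : E →ₗ[ℝ] V) (pr : V →ₗ[ℝ] E) (t : Dual ℝ V) (ξ : V)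
    (h1 : ∀ x, pr (ι x) = x) (h2 : ∀ x, t (ι x) = 0) (h4 : t ξ = 1) (h5 : pr ξ = 0)
    (h6 : ∀ y, ι (pr y) + t y • ξ = y) {x₀ : E} {O : Set E} (hO : IsOpen O) (hx : x₀ ∈ O)
    {S : Set (E →L[ℝ] ℝ)} (hS : closure S ∈ 𝓝 0) (φ : V → m → ℝ) (N : ℕ)
    (hφ : ∀ l ∈ S, ∃ (p : m → E → ℝ) (q : E → ℝ), (∀ a, p a ∈ Pd E N) ∧ q ∈ Pd E N ∧
      ∀ x ∈ O, q x ≠ 0 ∧ ∀ a, q x * φ (ι x - l x • ξ) a = p a x) :
    ∃ (J : ℕ) (δ : V → ℝ) (M : m → V → ℝ), δ ∈ Pd V J ∧ (∀ a, M a ∈ Pd V J) ∧ δ ≠ 0 ∧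
      ∃ ε > 0, ∀ l ∈ S, ‖l‖ < ε → ∀ x ∈ O, ∀ a,
        δ (ι x - l x • ξ) * φ (ι x - l x • ξ) a = M a (ι x - l x • ξ) := by
  classical
  obtain ⟨J, hJ⟩ := growth (fun d => finrank ℝ (Pd E d)) (finrank ℝ E) (Fintype.card m) N
    rank_zero Pd_rank
  obtain ⟨L, L1, ε, ε0, hε⟩ := gp_pick h3 (hO.mem_nhds hx) hS (J + N + 1)
  choose! p q p1 q1 pq using hφ
  let j : (E →L[ℝ] ℝ) → E →ₗ[ℝ] V := fun l => ι - (l : E →ₗ[ℝ] ℝ).smulRight ξ
  have j1 : ∀ l x, ι x - l x • ξ = j l x := fun l x => rfl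
  simp only [j1] at pq ⊢
  have j2 : ∀ (l l' : E →L[ℝ] ℝ) x, l x = l' x → j l x = j l' x := fun l l' x h => by
    rw [← j1, ← j1, h]
  have := Pd_fin (E := V) J
  let C : (E →L[ℝ] ℝ) → (Option m → Pd V J) →ₗ[ℝ] m → E → ℝ := fun l =>
    { toFun := fun u a x => (u none).1 (j l x) * p l a x - (u (some a)).1 (j l x) * q l x
      map_add' := fun u v => by ext a x; simp; ring
      map_smul' := fun r u => by ext a x; simp; ring }
  have C0 : ∀ l u a x, C l u a x = (u none).1 (j l x) * p l a x - (u (some a)).1 (j l x) * q l x :=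
    fun _ _ _ _ => rfl
  have C1 : ∀ l ∈ S, ∀ u a, C l u a ∈ Pd E (J + N) := fun l hl u a =>
    Submodule.sub_mem _ (Pd_mul (Pd_lin (u none).2 (j l)) (p1 l hl a))
      (Pd_mul (Pd_lin (u (some a)).2 (j l)) (q1 l hl))
  have C2 : ∀ l ∈ S, ∀ u a, ∀ x ∈ O, C l u a x = 0 ↔
      (u none).1 (j l x) * φ (j l x) a = (u (some a)).1 (j l x) := fun l hl u a x hx => by
    rw [C0, ← (pq l hl x hx).2 a]
    have := (pq l hl x hx).1
    exact ⟨fun h => mul_left_cancel₀ this (by linear_combination h), fun h => by rw [← h]; ring⟩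
  have C3 : ∀ l ∈ S, ∀ l' ∈ S, (∃ x ∈ O, l x = l' x) → ∀ u, C l' u = 0 → ∀ a x,
      (l - l' : E →L[ℝ] ℝ) x = 0 → C l u a x = 0 := by
    rintro l hl l' hl' ⟨x, x1, x2⟩ u hu a
    refine hyp_ident (C1 l hl u a) hO (l - l' : E →L[ℝ] ℝ) x1 (sub_eq_zero.2 x2) fun y y1 y2 => ?_
    rw [C2 l hl u a y y1, j2 l l' y (sub_eq_zero.1 y2), ← C2 l' hl' u a y y1, hu]
    rfl
  -- vanishing on a set of hyperplanes
  have C4 : ∀ (c : Fin (J + N + 1 + 1) → E →L[ℝ] ℝ), GP O c → ∀ (i : Fin _) (s : Finset (Fin _)),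
      i ∉ s → c i ∈ S → (∀ k ∈ s, c k ∈ S) → ∀ u, (∀ k ∈ s, C (c k) u = 0) → ∀ a,
      ∃ g ∈ Pd E (J + N - s.card), (J + N < s.card → g = 0) ∧
        ∀ x, C (c i) u a x = (∏ k ∈ s, (c i - c k : E →L[ℝ] ℝ) x) * g x := by
    intro c hc i s hi iS sS u hu a
    have ne : ∀ k ∈ s, i ≠ k := fun k hk h => hi (h ▸ hk)
    refine Pd_div_prod (fun k => ((c i - c k : E →L[ℝ] ℝ) : E →ₗ[ℝ] ℝ)) s (fun k hk k' hk' h => ?_)
      (fun k hk h => (hc.1 i k (ne k hk)).1 ?_) (C1 _ iS u a)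
      fun k hk => C3 _ iS _ (sS k hk) (hc.1 i k (ne k hk)).2 u (hu k hk) a
    · obtain ⟨x, x1, x2⟩ := hc.2 i k k' (ne k hk) (ne k' hk') h
      exact ⟨x, sub_eq_zero.2 x1, sub_ne_zero.2 x2⟩
    · ext x
      exact sub_eq_zero.1 (LinearMap.congr_fun h x)
  have g0 := hε 0 (by simpa using ε0)
  set c : Fin (J + N + 1 + 1) → E →L[ℝ] ℝ := Fin.snoc L 0 with hc
  have cL : ∀ i : Fin (J + N + 1), c i.castSucc = L i := fun i => by simp [hc]
  let ix : ℕ → Fin (J + N + 1) := fun n => Fin.ofNat _ n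
  have ix1 : ∀ n ≤ J + N, ((ix n : Fin _) : ℕ) = n := fun n hn => Nat.mod_eq_of_lt (by omega)
  obtain ⟨u, u0, u1⟩ := siegel (E := E) (J + N) (fun n => C (L (ix n)))
    (fun n x => ∏ k ∈ (Finset.Iio (ix n)).map Fin.castSuccEmb,
      (c (ix n).castSucc - c k : E →L[ℝ] ℝ) x) (fun n hn u hu a => by
      obtain ⟨g, g1, -, g2⟩ := C4 c g0 (ix n).castSucc ((Finset.Iio (ix n)).map Fin.castSuccEmb)
        (by simp) (cL _ ▸ L1 _) (fun k hk => by
          obtain ⟨k, -, rfl⟩ := Finset.mem_map.1 hk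
          exact cL _ ▸ L1 _) u (fun k hk => by
          obtain ⟨k, k1, rfl⟩ := Finset.mem_map.1 hk
          have k2 : (k : ℕ) < n := (Fin.lt_def.1 (Finset.mem_Iio.1 k1)).trans_eq (ix1 n hn)
          have k3 : ix k = k := Fin.ext (ix1 k (by omega))
          have := hu k k2
          rw [k3] at this
          exact (congrArg (fun l => C l u) (cL k)).trans this) a
      rw [Finset.card_map, Fin.card_Iio, ix1 n hn] at g1
      rw [cL] at g2
      exact ⟨g, g1, funext fun x => by rw [g2, cL]; rfl⟩) (by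
      rw [finrank_pi_fintype, Finset.sum_const, Finset.card_univ, Fintype.card_option, smul_eq_mul]
      exact hJ.trans_le (Nat.mul_le_mul_left _
        (rank_up ι pr t h1 h2 (ξ := ξ) (by simp [h4]) J)))
  have u2 : ∀ i, C (L i) u = 0 := fun i => by
    have := u1 i (by omega)
    rwa [show ix i = i from Fin.ext (ix1 i (by omega))] at this
  refine ⟨J, (u none).1, fun a => (u (some a)).1, (u none).2, fun a => (u (some a)).2,
    fun h => u0 (funext fun o => Subtype.ext ?_), ε, ε0, fun l hl l1 x hx a => ?_⟩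
  · rcases o with _ | a
    · exact h
    let H : Fin (J + N + 1) → Dual ℝ V := fun i => t + (L i : E →ₗ[ℝ] ℝ).comp pr
    have H1 : ∀ i k x, H i (j (L k) x) = L i x - L k x := fun i k x => by
      rw [← j1]
      simp [H, h1, h2, h4, h5]
      ring
    refine funext (Pd_bezout H Finset.univ (fun i _ k _ hik => ?_) (fun i _ hi => ?_)
      (u (some a)).2 (fun i _ y hy => ?_) (by simp))
    · have a1 := (g0.1 k.castSucc i.castSucc (by simpa using hik.symm)).1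
      rw [cL, cL] at a1
      obtain ⟨x, hx⟩ : ∃ x, L k x ≠ L i x := by
        by_contra hn
        push Not at hn
        exact a1 (ContinuousLinearMap.ext hn)
      exact ⟨j (L i) x, by rw [H1, sub_self], by rw [H1]; exact sub_ne_zero.2 hx⟩
    · simpa [H, h4, h5] using LinearMap.congr_fun hi ξ
    · have a1 : j (L i) (pr y) = y := by
        have a2 : t y = -L i (pr y) := eq_neg_of_add_eq_zero_left hy
        rw [← j1, sub_eq_add_neg, ← neg_smul, ← a2, h6]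
      rw [← a1]
      refine Pd_dom (q1 _ (L1 i)) (Pd_lin (u (some a)).2 (j (L i))) (fun x => ?_)
        (pq _ (L1 i) x₀ hx).1 _
      have := congrFun (congrFun (u2 i) a) x
      rw [C0, h] at this
      simpa [mul_comm] using this
  · obtain ⟨g, -, g2, g3⟩ := C4 _ (hε l l1) (Fin.last _) (Finset.univ.map Fin.castSuccEmb)
      (by simp [Fin.ext_iff]; omega) (by simpa using hl) (fun k hk => by
        obtain ⟨k, -, rfl⟩ := Finset.mem_map.1 hk
        simpa using L1 k) u (fun k hk => by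
        obtain ⟨k, -, rfl⟩ := Finset.mem_map.1 hk
        simpa using u2 k) a
    rw [← C2 l hl u a x hx]
    simpa [g2 (by simp)] using g3 x

end Pool.Agent.Lib.LB49
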