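import Pool.Agent.Lib.LB49.Pd

/-! Dimension counts for polynomial functions. -/

set_option autoImplicit false

open Set Filter Topology Module

namespace Pool.Agent.Lib.LB49

lemma rank_split {U Y : Type} [AddCommGroup U] [Module ℝ U] [AddCommGroup Y] [Module ℝ Y]
    (W : Submodule ℝ U) [FiniteDimensional ℝ W] (c : U →ₗ[ℝ] Y) :
    finrank ℝ W = finrank ℝ (W.map c) + finrank ℝ (W ⊓ LinearMap.ker c : Submodule ℝ U) := by
  rw [← (c.domRestrict W).finrank_range_add_finrank_ker, LinearMap.range_domRestrict,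
    LinearMap.ker_domRestrict, ← Submodule.map_comap_subtype, Submodule.finrank_map_subtype_eq]

lemma growth (a : ℕ → ℕ) (k m N : ℕ) (h0 : 1 ≤ a 0) (ha : ∀ d, a d ≤ (d + 1) ^ k) :
    ∃ J, m * ∑ d ∈ Finset.range (J + N + 1), a d < (m + 1) * ∑ d ∈ Finset.range (J + 1), a d := by
  by_contra hc
  push Not at hc
  set S : ℕ → ℕ := fun J => ∑ d ∈ Finset.range (J + 1), a d with hS
  have s0 : 1 ≤ S 0 := by simpa [hS] using h0
  have s1 : ∀ n, (m + 1) ^ n ≤ m ^ n * S (n * N) := fun n => by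
    induction n with
    | zero => simpa using s0
    | succ n ih =>
      have := hc (n * N)
      calc (m + 1) ^ (n + 1) = (m + 1) ^ n * (m + 1) := pow_succ _ _
        _ ≤ m ^ n * S (n * N) * (m + 1) := Nat.mul_le_mul_right _ ih
        _ = m ^ n * ((m + 1) * S (n * N)) := by ring
        _ ≤ m ^ n * (m * S (n * N + N)) := Nat.mul_le_mul_left _ this
        _ = m ^ (n + 1) * S ((n + 1) * N) := by rw [add_mul, one_mul]; ring
  have s2 : ∀ J, S J ≤ (J + 1) ^ (k + 1) := fun J => by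
    have := Finset.sum_le_card_nsmul (Finset.range (J + 1)) a ((J + 1) ^ k) fun d hd =>
      (ha d).trans (Nat.pow_le_pow_left (by have := Finset.mem_range.1 hd; omega) k)
    rw [Finset.card_range, smul_eq_mul] at this
    rw [pow_succ, mul_comm]
    exact this
  rcases Nat.eq_zero_or_pos m with rfl | hm
  · simpa using s1 1
  have m0 : (0 : ℝ) < m := by exact_mod_cast hm
  have r1 : (1 : ℝ) < (m + 1) / m := by rw [lt_div_iff₀ m0]; linarith
  have t1 := (tendsto_pow_const_div_const_pow_of_one_lt (k + 1) r1).const_mul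
    (((N : ℝ) + 1) ^ (k + 1))
  rw [mul_zero] at t1
  obtain ⟨n, n1, n2⟩ := ((t1.eventually (gt_mem_nhds one_pos)).and (eventually_ge_atTop 1)).exists
  have a1 : (m + 1) ^ n ≤ m ^ n * ((N + 1) * n) ^ (k + 1) :=
    (s1 n).trans (Nat.mul_le_mul_left _ ((s2 _).trans (Nat.pow_le_pow_left (by nlinarith) _)))
  have a2 : ((m : ℝ) + 1) ^ n ≤ m ^ n * ((N + 1) * n) ^ (k + 1) := by exact_mod_cast a1
  rw [← mul_div_assoc, ← mul_pow, div_lt_one (by positivity), div_pow,
    lt_div_iff₀ (by positivity)] at n1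
  linarith

variable {E V : Type} [AddCommGroup E] [Module ℝ E] [AddCommGroup V] [Module ℝ V]
  [FiniteDimensional ℝ E] [FiniteDimensional ℝ V]

lemma rank_zero : 1 ≤ finrank ℝ (Pd E 0) := by
  have := Pd_fin (E := E) 0
  refine Nat.pos_of_ne_zero fun h => ?_
  have a1 := const_mem (E := E) 0 1
  rw [Submodule.finrank_eq_zero.1 h, Submodule.mem_bot] at a1
  simpa using congrFun a1 0

omit [FiniteDimensional ℝ E] in
/-- one more variable -/
lemma rank_up (ι : E →ₗ[ℝ] V) (pr : V →ₗ[ℝ] E) (t : Dual ℝ V) (h1 : ∀ x, pr (ι x) = x)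
    (h2 : ∀ x, t (ι x) = 0) {ξ : V} (h3 : t ξ ≠ 0) (J : ℕ) :
    ∑ d ∈ Finset.range (J + 1), finrank ℝ (Pd E d) ≤ finrank ℝ (Pd V J) := by
  have key : ∀ J, finrank ℝ (Pd E J) + finrank ℝ (Pd V J ⊓
      LinearMap.ker (LinearMap.funLeft ℝ ℝ ι) : Submodule ℝ (V → ℝ)) ≤ finrank ℝ (Pd V J) := by
    intro J
    have := Pd_fin (E := V) J
    rw [rank_split (Pd V J) (LinearMap.funLeft ℝ ℝ ι)]
    refine Nat.add_le_add_right (Submodule.finrank_mono fun f hf => ?_) _
    exact ⟨fun y => f (pr y), Pd_lin hf pr, by ext; simp [LinearMap.funLeft_apply, h1]⟩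
  induction J with
  | zero => simpa using le_trans (Nat.le_add_right _ _) (key 0)
  | succ J ih =>
    have := Pd_fin (E := V) (J + 1)
    rw [Finset.sum_range_succ, add_comm]
    refine le_trans (Nat.add_le_add_left (ih.trans ?_) _) (key _)
    let T : Pd V J →ₗ[ℝ] (Pd V (J + 1) ⊓ LinearMap.ker (LinearMap.funLeft ℝ ℝ ι) :
        Submodule ℝ (V → ℝ)) :=
      ((LinearMap.mulRight ℝ (t : V → ℝ)).domRestrict (Pd V J)).codRestrict _ fun f =>
        ⟨Pd_mul f.2 (dual_mem t), by ext; simp [LinearMap.funLeft_apply, h2]⟩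
    have fin : FiniteDimensional ℝ (Pd V (J + 1) ⊓ LinearMap.ker (LinearMap.funLeft ℝ ℝ ι) :
        Submodule ℝ (V → ℝ)) := Submodule.finiteDimensional_of_le inf_le_left
    refine LinearMap.finrank_le_finrank_of_injective (f := T) ((injective_iff_map_eq_zero T).2
      fun f hf => Subtype.ext (funext fun y => Pd_dom (dual_mem t) f.2 (fun x => ?_) h3 y))
    rw [mul_comm]
    exact congrFun (congrArg Subtype.val hf) x

/-- the count: successive conditions that fall into smaller and smaller spaces -/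
lemma siegel {U m : Type} [AddCommGroup U] [Module ℝ U] [FiniteDimensional ℝ U] [Fintype m]
    (D : ℕ) (c : ℕ → U →ₗ[ℝ] m → E → ℝ) (w : ℕ → E → ℝ)
    (hc : ∀ n ≤ D, ∀ u, (∀ i < n, c i u = 0) → ∀ a, ∃ g ∈ Pd E (D - n), c n u a = w n * g)
    (hd : Fintype.card m * ∑ d ∈ Finset.range (D + 1), finrank ℝ (Pd E d) < finrank ℝ U) :
    ∃ u : U, u ≠ 0 ∧ ∀ i ≤ D, c i u = 0 := by
  let W : ℕ → Submodule ℝ U := fun n => ⨅ i < n, LinearMap.ker (c i)
  have w1 : ∀ n u, u ∈ W n ↔ ∀ i < n, c i u = 0 := fun n u => by simp [W]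
  have key : ∀ n ≤ D + 1, finrank ℝ U ≤ finrank ℝ (W n) +
      Fintype.card m * ∑ i ∈ Finset.range n, finrank ℝ (Pd E (D - i)) := by
    intro n
    induction n with
    | zero =>
      intro _
      have : W 0 = ⊤ := by simp [W]
      rw [this, finrank_top]
      simp
    | succ n ih =>
      intro hn
      have e : W (n + 1) = W n ⊓ LinearMap.ker (c n) := by
        ext u
        simp only [Submodule.mem_inf, w1, LinearMap.mem_ker, Nat.lt_succ_iff_lt_or_eq]
        exact ⟨fun h => ⟨fun i hi => h i (Or.inl hi), h n (Or.inr rfl)⟩, fun h i hi =>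
          hi.elim (h.1 i) fun e => e ▸ h.2⟩
      have := Pd_fin (E := E) (D - n)
      let T : (m → Pd E (D - n)) →ₗ[ℝ] m → E → ℝ := LinearMap.pi fun a =>
        ((LinearMap.mulLeft ℝ (w n)).domRestrict (Pd E (D - n))).comp (LinearMap.proj a)
      have a1 : (W n).map (c n) ≤ LinearMap.range T := by
        rintro _ ⟨u, hu, rfl⟩
        choose g g1 g2 using hc n (by omega) u ((w1 n u).1 hu)
        exact ⟨fun a => ⟨g a, g1 a⟩, funext fun a => (g2 a).symm⟩
      have a2 := (Submodule.finrank_mono a1).trans T.finrank_range_le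
      rw [finrank_pi_fintype, Finset.sum_const, Finset.card_univ, smul_eq_mul] at a2
      have a3 := ih (by omega)
      rw [rank_split (W n) (c n), ← e] at a3
      rw [Finset.sum_range_succ, mul_add]
      omega
  have a1 := key (D + 1) le_rfl
  have a2 : ∑ i ∈ Finset.range (D + 1), finrank ℝ (Pd E (D - i)) = _ :=
    Finset.sum_range_reflect (fun d => finrank ℝ (Pd E d)) (D + 1)
  rw [a2] at a1
  have a3 : W (D + 1) ≠ ⊥ := fun h => by
    rw [h, finrank_bot] at a1
    omega
  obtain ⟨u, u1, u2⟩ := (Submodule.ne_bot_iff _).1 a3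
  exact ⟨u, u2, fun i hi => (w1 _ u).1 u1 i (by omega)⟩

end Pool.Agent.Lib.LB49
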