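import Mathlib

/-! Polynomial functions of bounded degree on a real vector space. -/

set_option autoImplicit false

open Set Filter Topology Module Polynomial

namespace Pool.Agent.Lib.LB49

/-- affine functions -/
def A1 (E : Type) [AddCommGroup E] [Module ℝ E] : Submodule ℝ (E → ℝ) :=
  Submodule.span ℝ (insert 1 (range fun l : Dual ℝ E => (l : E → ℝ)))

/-- polynomial functions of degree at most `d` -/
def Pd (E : Type) [AddCommGroup E] [Module ℝ E] (d : ℕ) : Submodule ℝ (E → ℝ) := A1 E ^ d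

variable {E F : Type} [AddCommGroup E] [Module ℝ E] [AddCommGroup F] [Module ℝ F]

lemma mem_A1 {a : E → ℝ} : a ∈ A1 E ↔ ∃ (c : ℝ) (l : Dual ℝ E), a = fun x => c + l x := by
  constructor
  · intro h
    induction h using Submodule.span_induction with
    | mem a ha =>
      rcases ha with rfl | ⟨l, rfl⟩
      · exact ⟨1, 0, by ext; simp⟩
      · exact ⟨0, l, by ext; simp⟩
    | zero => exact ⟨0, 0, by ext; simp⟩
    | add a b _ _ ha hb =>
      obtain ⟨c, l, rfl⟩ := ha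
      obtain ⟨c', l', rfl⟩ := hb
      exact ⟨c + c', l + l', by ext; simp; ring⟩
    | smul r a _ ha =>
      obtain ⟨c, l, rfl⟩ := ha
      exact ⟨r * c, r • l, by ext; simp; ring⟩
  · rintro ⟨c, l, rfl⟩
    have h1 : (1 : E → ℝ) ∈ A1 E := Submodule.subset_span (mem_insert _ _)
    have h2 : (l : E → ℝ) ∈ A1 E := Submodule.subset_span (mem_insert_of_mem _ ⟨l, rfl⟩)
    have := (A1 E).add_mem ((A1 E).smul_mem c h1) h2
    refine (congrArg (· ∈ A1 E) ?_).mp this
    ext
    simp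

lemma Pd_mul {d e : ℕ} {f g : E → ℝ} (hf : f ∈ Pd E d) (hg : g ∈ Pd E e) : f * g ∈ Pd E (d + e) := by
  rw [Pd, pow_add]
  exact Submodule.mul_mem_mul hf hg

lemma Pd_zero {f : E → ℝ} : f ∈ Pd E 0 ↔ ∃ c : ℝ, f = fun _ => c := by
  rw [Pd, pow_zero, Submodule.mem_one]
  exact ⟨fun ⟨c, hc⟩ => ⟨c, hc.symm⟩, fun ⟨c, hc⟩ => ⟨c, hc.symm⟩⟩

lemma Pd_one {f : E → ℝ} : f ∈ Pd E 1 ↔ ∃ (c : ℝ) (l : Dual ℝ E), f = fun x => c + l x := by
  rw [Pd, pow_one, mem_A1]

lemma dual_mem (l : Dual ℝ E) : (l : E → ℝ) ∈ Pd E 1 := Pd_one.2 ⟨0, l, by ext; simp⟩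

lemma Pd_mono {d e : ℕ} (h : d ≤ e) : Pd E d ≤ Pd E e := by
  induction h with
  | refl => exact le_rfl
  | step _ ih =>
    intro f hf
    simpa using Pd_mul (ih hf) (Pd_one.2 ⟨1, 0, by ext; simp⟩ : (1 : E → ℝ) ∈ Pd E 1)

lemma const_mem (d : ℕ) (c : ℝ) : (fun _ : E => c) ∈ Pd E d :=
  Pd_mono (Nat.zero_le d) (Pd_zero.2 ⟨c, rfl⟩)

/-- induction on the degree -/
lemma Pd_ind {p : ℕ → (E → ℝ) → Prop} (h0 : ∀ c : ℝ, p 0 fun _ => c)
    (ha : ∀ d f g, p d f → p d g → p d (f + g))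
    (hm : ∀ d (c : ℝ) (l : Dual ℝ E) f, f ∈ Pd E d → p d f → p (d + 1) (f * fun x => c + l x))
    (d : ℕ) : ∀ f ∈ Pd E d, p d f := by
  induction d with
  | zero =>
    intro f hf
    obtain ⟨c, rfl⟩ := Pd_zero.1 hf
    exact h0 c
  | succ d ih =>
    intro f hf
    rw [Pd, pow_succ] at hf
    refine Submodule.mul_induction_on hf (fun f hf a ha => ?_) (ha _)
    obtain ⟨c, l, rfl⟩ := mem_A1.1 ha
    exact hm d c l f hf (ih f hf)

/-- composition with an affine map -/
lemma Pd_comp {d : ℕ} {f : F → ℝ} (hf : f ∈ Pd F d) (T : E →ₗ[ℝ] F) (b : F) :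
    (fun x => f (b + T x)) ∈ Pd E d := by
  refine Pd_ind (p := fun d f => (fun x => f (b + T x)) ∈ Pd E d) (fun c => const_mem 0 c)
    (fun d f g h1 h2 => (Pd E d).add_mem h1 h2) (fun d c l f _ h => ?_) d f hf
  exact Pd_mul h (Pd_one.2 ⟨c + l b, l.comp T, by ext; simp [add_assoc]⟩ :
    (fun x => c + l (b + T x)) ∈ Pd E 1)

lemma Pd_lin {d : ℕ} {f : F → ℝ} (hf : f ∈ Pd F d) (T : E →ₗ[ℝ] F) : (fun x => f (T x)) ∈ Pd E d := by
  simpa using Pd_comp hf T 0

/-- restriction to a line -/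
lemma Pd_line {d : ℕ} {f : E → ℝ} (hf : f ∈ Pd E d) (x v : E) :
    ∃ p : ℝ[X], p.natDegree ≤ d ∧ ∀ t : ℝ, f (x + t • v) = p.eval t := by
  refine Pd_ind (p := fun d f => ∃ p : ℝ[X], p.natDegree ≤ d ∧ ∀ t : ℝ, f (x + t • v) = p.eval t)
    (fun c => ⟨C c, by simp, by simp⟩) ?_ ?_ d f hf
  · rintro d f g ⟨p, p1, p2⟩ ⟨q, q1, q2⟩
    exact ⟨p + q, (natDegree_add_le _ _).trans (max_le p1 q1), fun t => by simp [p2, q2]⟩
  · rintro d c l f - ⟨p, p1, p2⟩
    refine ⟨p * (C (l v) * X + C (c + l x)), natDegree_mul_le.trans (add_le_add p1 natDegree_linear_le),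
      fun t => ?_⟩
    simp [p2]
    left
    ring

/-- no zero divisors -/
lemma Pd_dom {d e : ℕ} {f g : E → ℝ} (hf : f ∈ Pd E d) (hg : g ∈ Pd E e) (h : ∀ x, f x * g x = 0)
    {x : E} (hx : f x ≠ 0) (y : E) : g y = 0 := by
  obtain ⟨p, -, p2⟩ := Pd_line hf x (y - x)
  obtain ⟨q, -, q2⟩ := Pd_line hg x (y - x)
  have a1 : p * q = 0 := Polynomial.funext fun t => by rw [eval_mul, ← p2, ← q2, h, eval_zero]
  rcases mul_eq_zero.1 a1 with a2 | a2
  · have := p2 0
    simp [a2, hx] at this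
  · simpa [a2] using q2 1

/-- division by a linear form, with remainder -/
lemma Pd_rem {d : ℕ} {f : E → ℝ} (hf : f ∈ Pd E (d + 1)) (l : Dual ℝ E) (e : E) :
    ∃ g ∈ Pd E d, ∀ x, f x = f (x - l x • e) + l x * g x := by
  have key := Pd_ind (p := fun d f => ∃ g ∈ Pd E (d - 1), (d = 0 → g = 0) ∧
      ∀ x, f x = f (x - l x • e) + l x * g x)
    (fun c => ⟨0, Submodule.zero_mem _, fun _ => rfl, by simp⟩) ?_ ?_ (d + 1) f hf
  · obtain ⟨g, g1, -, g2⟩ := key
    exact ⟨g, g1, g2⟩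
  · rintro d f g ⟨p, p1, p0, p2⟩ ⟨q, q1, q0, q2⟩
    refine ⟨p + q, Submodule.add_mem _ p1 q1, fun h => by rw [p0 h, q0 h, add_zero], fun x => ?_⟩
    simp only [Pi.add_apply]
    linear_combination p2 x + q2 x
  · rintro d c m f hf ⟨p, p1, p0, p2⟩
    refine ⟨m e • f + p * fun x => c + m (x - l x • e), Submodule.add_mem _
      (Submodule.smul_mem _ _ hf) ?_, by simp, fun x => ?_⟩
    · rcases Nat.eq_zero_or_pos d with rfl | hd
      · simp [p0 rfl]
      · have := Pd_mul p1 (Pd_one.2 ⟨c, m - m e • l, by ext; simp [mul_comm]⟩ :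
          (fun x => c + m (x - l x • e)) ∈ Pd E 1)
        exact Pd_mono (by omega) this
    · simp only [Pi.add_apply, Pi.mul_apply, Pi.smul_apply, smul_eq_mul, map_sub, map_smul]
      linear_combination (c + m x - l x * m e) * p2 x

/-- a polynomial that vanishes on a hyperplane is divisible by its equation -/
lemma Pd_div {d : ℕ} {f : E → ℝ} (hf : f ∈ Pd E (d + 1)) {l : Dual ℝ E} (hl : l ≠ 0)
    (h : ∀ x, l x = 0 → f x = 0) : ∃ g ∈ Pd E d, ∀ x, f x = l x * g x := by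
  obtain ⟨e, he⟩ : ∃ e, l e = 1 := LinearMap.surjective_of_ne_zero hl 1
  obtain ⟨g, g1, g2⟩ := Pd_rem hf l e
  exact ⟨g, g1, fun x => by rw [g2 x, h _ (by simp [he]), zero_add]⟩

/-- vanishing on several different hyperplanes -/
lemma Pd_div_prod {ι : Type} (l : ι → Dual ℝ E) (s : Finset ι)
    (hl : ∀ i ∈ s, ∀ j ∈ s, i ≠ j → ∃ x, l i x = 0 ∧ l j x ≠ 0) (h0 : ∀ i ∈ s, l i ≠ 0) :
    ∀ {d : ℕ} {f : E → ℝ}, f ∈ Pd E d → (∀ i ∈ s, ∀ x, l i x = 0 → f x = 0) →
      ∃ g ∈ Pd E (d - s.card), (d < s.card → g = 0) ∧ ∀ x, f x = (∏ i ∈ s, l i x) * g x := by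
  classical
  induction s using Finset.induction_on with
  | empty => exact fun hf _ => ⟨_, hf, by simp, by simp⟩
  | insert a s ha ih =>
    intro d f hf h
    have ma := Finset.mem_insert_self a s
    rw [Finset.card_insert_of_notMem ha]
    rcases d with _ | d
    · obtain ⟨c, rfl⟩ := Pd_zero.1 hf
      exact ⟨0, Submodule.zero_mem _, fun _ => rfl, fun x => by simpa using h a ma 0 (map_zero _)⟩
    obtain ⟨g, g1, g2⟩ := Pd_div hf (h0 a ma) (h a ma)
    obtain ⟨k, k1, k2, k3⟩ := ih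
      (fun i hi j hj => hl i (Finset.mem_insert_of_mem hi) j (Finset.mem_insert_of_mem hj))
      (fun i hi => h0 i (Finset.mem_insert_of_mem hi)) g1 fun i hi x hx => by
        have mi := Finset.mem_insert_of_mem (b := a) hi
        obtain ⟨y, y1, y2⟩ := hl i mi a ma (by rintro rfl; exact ha hi)
        exact Pd_dom (Pd_lin (dual_mem (l a)) (LinearMap.ker (l i)).subtype)
          (Pd_lin g1 (LinearMap.ker (l i)).subtype)
          (fun z => (g2 z).symm.trans (h i mi z z.2)) (x := ⟨y, y1⟩) y2 ⟨x, hx⟩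
    refine ⟨k, by rwa [Nat.add_sub_add_right], fun hd => k2 (by omega), fun x => ?_⟩
    rw [g2, k3, Finset.prod_insert ha, mul_assoc]

/-- a polynomial that vanishes on many hyperplanes is zero -/
lemma Pd_bezout {ι : Type} (l : ι → Dual ℝ E) (s : Finset ι)
    (hl : ∀ i ∈ s, ∀ j ∈ s, i ≠ j → ∃ x, l i x = 0 ∧ l j x ≠ 0) (h0 : ∀ i ∈ s, l i ≠ 0) {d : ℕ}
    {f : E → ℝ} (hf : f ∈ Pd E d) (h : ∀ i ∈ s, ∀ x, l i x = 0 → f x = 0) (hd : d < s.card) (x : E) :
    f x = 0 := by
  obtain ⟨g, -, g2, g3⟩ := Pd_div_prod l s hl h0 hf h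
  simp [g3, g2 hd]

section dim

lemma span_pow [Finite (Free.ChooseBasisIndex ℝ E)] (d : ℕ) : ∃ s : Finset (E → ℝ),
    s.card ≤ (d + 1) ^ Nat.card (Free.ChooseBasisIndex ℝ E) ∧ Pd E d ≤ Submodule.span ℝ s := by
  classical
  have := Fintype.ofFinite (Free.ChooseBasisIndex ℝ E)
  let b := Free.chooseBasis ℝ E
  let m : (Free.ChooseBasisIndex ℝ E → ℕ) → E → ℝ := fun a x => ∏ i, b.coord i x ^ a i
  let S : ℕ → Finset (E → ℝ) := fun d => (Fintype.piFinset fun _ => Finset.range (d + 1)).image m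
  refine ⟨S d, Finset.card_image_le.trans (by simp), fun f hf => ?_⟩
  have mem : ∀ d a, (∀ i, a i ≤ d) → m a ∈ Submodule.span ℝ (S d : Set (E → ℝ)) := fun d a ha =>
    Submodule.subset_span (Finset.mem_image.2 ⟨a, by simpa [Nat.lt_succ_iff] using ha, rfl⟩)
  refine Pd_ind (p := fun d f => f ∈ Submodule.span ℝ (S d : Set (E → ℝ))) (fun c => ?_)
    (fun d f g => Submodule.add_mem _) (fun d c l f hf' h => ?_) d f hf
  · have := Submodule.smul_mem _ c (mem 0 0 fun _ => le_rfl)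
    refine (congrArg (· ∈ _) ?_).mp this
    ext
    simp [m]
  · clear hf'
    induction h using Submodule.span_induction with
    | mem f hf =>
      obtain ⟨a, ha, rfl⟩ := Finset.mem_image.1 hf
      have ha' : ∀ i, a i ≤ d := by simpa [Nat.lt_succ_iff] using ha
      have e : (m a * fun x => c + l x) =
          c • m a + ∑ j, l (b j) • m (a + Pi.single j 1) := by
        ext x
        have e1 : l x = ∑ j, b.coord j x * l (b j) := by
          calc l x = l (∑ j, b.repr x j • b j) := by rw [b.sum_repr]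
            _ = _ := by simp only [map_sum, map_smul, smul_eq_mul, Basis.coord_apply]
        have e2 : ∀ j, m (a + Pi.single j 1) x = m a x * b.coord j x := fun j => by
          simp only [m, Pi.add_apply, pow_add, Finset.prod_mul_distrib]
          congr 1
          rw [Finset.prod_eq_single j (fun i _ hi => by simp [hi]) (by simp)]
          simp
        simp only [Pi.mul_apply, Pi.add_apply, Pi.smul_apply, Finset.sum_apply, smul_eq_mul, e2]
        rw [e1, mul_add, Finset.mul_sum, mul_comm c]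
        exact congrArg _ (Finset.sum_congr rfl fun j _ => by ring)
      rw [e]
      refine Submodule.add_mem _ (Submodule.smul_mem _ _ (mem _ _ fun i => (ha' i).trans (by omega)))
        (Submodule.sum_mem _ fun j _ => Submodule.smul_mem _ _ (mem _ _ fun i => ?_))
      have := ha' i
      by_cases hij : i = j
      · subst hij
        simpa using this
      · simp only [Pi.add_apply, Pi.single_eq_of_ne hij]
        omega
    | zero => simp
    | add f g _ _ h1 h2 =>
      rw [add_mul]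
      exact Submodule.add_mem _ h1 h2
    | smul r f _ h1 =>
      rw [smul_mul_assoc]
      exact Submodule.smul_mem _ _ h1

lemma Pd_fin [FiniteDimensional ℝ E] (d : ℕ) : FiniteDimensional ℝ (Pd E d) := by
  obtain ⟨s, -, h⟩ := span_pow (E := E) d
  exact Submodule.finiteDimensional_of_le h

lemma Pd_rank [FiniteDimensional ℝ E] (d : ℕ) : finrank ℝ (Pd E d) ≤ (d + 1) ^ finrank ℝ E := by
  obtain ⟨s, h1, h⟩ := span_pow (E := E) d
  rw [← finrank_eq_nat_card_basis (Free.chooseBasis ℝ E)] at h1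
  exact (Submodule.finrank_mono h).trans ((finrank_span_finset_le_card s).trans h1)

end dim

section top

variable {X : Type} [NormedAddCommGroup X] [NormedSpace ℝ X]

/-- the identity theorem -/
lemma Pd_ident {d : ℕ} {f : X → ℝ} (hf : f ∈ Pd X d) {x : X} (h : ∀ᶠ y in 𝓝 x, f y = 0) (y : X) :
    f y = 0 := by
  obtain ⟨p, -, p2⟩ := Pd_line hf x (y - x)
  have a1 : Tendsto (fun t : ℝ => x + t • (y - x)) (𝓝 0) (𝓝 x) :=
    Continuous.tendsto' (by fun_prop) _ _ (by simp)
  have a2 : p = 0 := eq_zero_of_infinite_isRoot p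
    (infinite_of_mem_nhds 0 ((a1.eventually h).mono fun t ht => (p2 t).symm.trans ht))
  simpa [a2] using p2 1

lemma Pd_analytic [FiniteDimensional ℝ X] {d : ℕ} {f : X → ℝ} (hf : f ∈ Pd X d) (x : X) :
    AnalyticAt ℝ f x :=
  Pd_ind (p := fun _ f => AnalyticAt ℝ f x) (fun _ => analyticAt_const) (fun _ _ _ => AnalyticAt.add)
    (fun _ _ l _ _ h => h.mul (analyticAt_const.add
      ((LinearMap.toContinuousLinearMap l).analyticAt x))) d f hf

lemma Pd_cont [FiniteDimensional ℝ X] {d : ℕ} {f : X → ℝ} (hf : f ∈ Pd X d) : Continuous f :=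
  continuous_iff_continuousAt.2 fun x => (Pd_analytic hf x).continuousAt

/-- the complement of the zero set of a nonzero polynomial is dense -/
lemma Pd_dense {d : ℕ} {f : X → ℝ} (hf : f ∈ Pd X d) {y : X} (hy : f y ≠ 0) : Dense {x | f x ≠ 0} :=
  fun x => by
    rw [mem_closure_iff_frequently]
    exact fun h => hy (Pd_ident hf (h.mono fun z hz => not_not.1 hz) y)

end top

end Pool.Agent.Lib.LB49
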