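import Pool.Agent.Lib.MP_f62ea7_gt.FLOW

/-! Local flows and the variational equation. -/

set_option autoImplicit false

open Set Filter Topology Metric
open scoped ContDiff NNReal

namespace Pool.Agent.Lib.LB49

variable {E : Type} [NormedAddCommGroup E] [NormedSpace ℝ E]

/-- uniqueness for a linear equation on the unit interval -/
theorem lin_uniq {A : ℝ → E →L[ℝ] E} (hA : Continuous A) {J K : ℝ → E}
    (hJ : ∀ t ∈ Icc (0 : ℝ) 1, HasDerivAt J (A t (J t)) t)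
    (hK : ∀ t ∈ Icc (0 : ℝ) 1, HasDerivAt K (A t (K t)) t) (h0 : J 0 = K 0) : J 1 = K 1 := by
  obtain ⟨C, hC⟩ := (isCompact_Icc (a := (0 : ℝ)) (b := 1)).exists_bound_of_continuousOn
    hA.continuousOn
  refine ODE_solution_unique_of_mem_Icc_right (v := fun t x => A t x) (s := fun _ => univ)
    (K := C.toNNReal) (fun t ht => ?_)
    (fun t ht => (hJ t ht).continuousAt.continuousWithinAt)
    (fun t ht => (hJ t (Ico_subset_Icc_self ht)).hasDerivWithinAt) (fun _ _ => trivial)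
    (fun t ht => (hK t ht).continuousAt.continuousWithinAt)
    (fun t ht => (hK t (Ico_subset_Icc_self ht)).hasDerivWithinAt) (fun _ _ => trivial) h0
    (right_mem_Icc.2 zero_le_one)
  refine ((A t).lipschitz.weaken ?_).lipschitzOnWith
  rw [← NNReal.coe_le_coe, coe_nnnorm]
  exact (hC t (Ico_subset_Icc_self ht)).trans (Real.le_coe_toNNReal C)

lemma slice_fd {Φ : ℝ → E → E} (hΦ : ContDiff ℝ ∞ fun q : ℝ × E => Φ q.1 q.2) (t : ℝ) (p : E) :
    HasFDerivAt (Φ t) ((fderiv ℝ (fun q : ℝ × E => Φ q.1 q.2) (t, p)).comp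
      (ContinuousLinearMap.inr ℝ ℝ E)) p :=
  ((hΦ.differentiable (by simp)) (t, p)).hasFDerivAt.comp p (hasFDerivAt_prodMk_right t p)

/-- the variational equation of a smooth flow -/
theorem var_eq {Z : E → E} (hZ : ContDiff ℝ ∞ Z) {Φ : ℝ → E → E}
    (hΦ : ContDiff ℝ ∞ fun q : ℝ × E => Φ q.1 q.2)
    (hd : ∀ p t, HasDerivAt (fun τ => Φ τ p) (Z (Φ t p)) t) (p w : E) (t : ℝ) :
    HasDerivAt (fun τ => fderiv ℝ (Φ τ) p w) (fderiv ℝ Z (Φ t p) (fderiv ℝ (Φ t) p w)) t := by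
  set G : ℝ × E → E := fun q => Φ q.1 q.2 with hG
  have dG : Differentiable ℝ G := hΦ.differentiable (by simp)
  have d2 : Differentiable ℝ (fderiv ℝ G) :=
    (hΦ.fderiv_right (m := ∞) (by simp)).differentiable (by simp)
  have e1 : ∀ τ, fderiv ℝ (Φ τ) p w = fderiv ℝ G (τ, p) (0, w) := fun τ => by
    rw [(slice_fd hΦ τ p).fderiv]
    simp [hG]
  have e2 : ∀ q : ℝ × E, fderiv ℝ G q (1, 0) = Z (G q) := fun q => by
    have a1 : HasDerivAt (fun τ => G (τ, q.2)) (fderiv ℝ G q (1, 0)) q.1 :=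
      (dG q).hasFDerivAt.comp_hasDerivAt_of_eq q.1
        ((hasDerivAt_id q.1).prodMk (hasDerivAt_const q.1 q.2)) rfl
    exact a1.unique (hd q.2 q.1)
  have sy := (hΦ.contDiffAt (x := (t, p))).isSymmSndFDerivAt (by
    rw [minSmoothness_of_isRCLikeNormedField]; exact WithTop.coe_le_coe.2 le_top)
  have a2 : HasDerivAt (fun τ => fderiv ℝ G (τ, p)) (fderiv ℝ (fderiv ℝ G) (t, p) (1, 0)) t :=
    (d2 (t, p)).hasFDerivAt.comp_hasDerivAt_of_eq t
      ((hasDerivAt_id t).prodMk (hasDerivAt_const t p)) rfl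
  have a3 := a2.clm_apply (hasDerivAt_const t ((0, w) : ℝ × E))
  have a4 := (d2 (t, p)).hasFDerivAt.clm_apply (hasFDerivAt_const ((1, 0) : ℝ × E) (t, p))
  have a5 := ((hZ.differentiable (by simp)) (G (t, p))).hasFDerivAt.comp (t, p) (dG (t, p)).hasFDerivAt
  have a6 : (fun q => fderiv ℝ G q (1, 0)) = Z ∘ G := funext e2
  rw [a6] at a4
  have a7 := congrArg (fun T => T ((0, w) : ℝ × E)) (a4.unique a5)
  simp only [e1]
  refine a3.congr_deriv ?_
  rw [sy.eq]
  simpa using a7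

variable [FiniteDimensional ℝ E]

/-- a smooth field with a smooth global flow that agrees with `S` near `p₀` -/
theorem cut_flow {S : E → E} {p₀ : E} {U : Set E} (hU : U ∈ 𝓝 p₀)
    (hS : ∀ p ∈ U, ContDiffAt ℝ ∞ S p) :
    ∃ (χ : E → ℝ) (Φ : ℝ → E → E), ContDiff ℝ ∞ (fun p => χ p • S p) ∧
      ContDiff ℝ ∞ (fun q : ℝ × E => Φ q.1 q.2) ∧ (∀ p, Φ 0 p = p) ∧
      (∀ s t p, Φ (s + t) p = Φ s (Φ t p)) ∧
      (∀ p t, HasDerivAt (fun τ => Φ τ p) (χ (Φ t p) • S (Φ t p)) t) ∧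
      (S p₀ = 0 → ∀ s, Φ s p₀ = p₀) ∧ ∀ᶠ p in 𝓝 p₀, χ p = 1 := by
  have : CompleteSpace E := FiniteDimensional.complete ℝ E
  obtain ⟨δ, hδ, hb⟩ := Metric.mem_nhds_iff.1 hU
  let χ : ContDiffBump p₀ := ⟨δ / 4, δ / 2, by positivity, by linarith⟩
  have hZ : ContDiff ℝ ∞ fun p => χ p • S p := by
    refine contDiff_iff_contDiffAt.2 fun p => ?_
    by_cases hp : p ∈ ball p₀ δ
    · exact χ.contDiffAt.smul (hS p (hb hp))
    · refine (contDiffAt_const (c := (0 : E))).congr_of_eventuallyEq ?_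
      have : ∀ᶠ q in 𝓝 p, δ / 2 < dist q p₀ := by
        refine (continuous_id.dist continuous_const).continuousAt.eventually (lt_mem_nhds ?_)
        rw [mem_ball, not_lt] at hp
        change δ / 2 < dist p p₀
        linarith
      filter_upwards [this] with q hq
      rw [χ.zero_of_le_dist hq.le, zero_smul]
  have hs : HasCompactSupport fun p => χ p • S p := χ.hasCompactSupport.smul_right
  obtain ⟨K, hK⟩ := hZ.lipschitzWith_of_hasCompactSupport hs (by simp)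
  obtain ⟨L, hL⟩ := hs.exists_bound_of_continuous hZ.continuous
  obtain ⟨Φ, hsm, hz, hg, hd, hu⟩ := MP_f62ea7_gt.FLOW.smooth_flow hZ hK
    (L := ⟨L, (norm_nonneg _).trans (hL 0)⟩) hL
  refine ⟨χ, Φ, hZ, hsm, hz, hg, hd, fun h0 s => ?_, χ.eventuallyEq_one⟩
  exact (hu (fun _ => p₀) (fun t => by simpa [h0] using hasDerivAt_const t p₀) s).symm

end Pool.Agent.Lib.LB49
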